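import Pool.Agent.V2450.Deligne.Main

/-!
# Deligne's conjecture for motives which become abelian over a supersolvable extension of `ℚ`

The conventions are those of MP_b696eb_nt: `M` is a critical pure motive over `ℚ` with coefficients in
`E = ℚ`.

Let `E` be the field of coefficients, `k` an algebraic closure of `E`, `B = E ⊗ ℂ` and
`A = k ⊗_E B = k ⊗ ℂ`. Let `G = T(k)` be the group of the `k`-points of the Taniyama group `T`: the
motives over `ℚ` (for absolute Hodge cycles) with coefficients in `k` which are potentially of CM
type (they are generated by the abelian varieties which have complex multiplication over the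
algebraic closure and the Artin motives) are the algebraic representations `ρ` of `G` on finite
dimensional `k`-spaces `V` (Deligne, Langlands). For a number field `K` the inverse image of
`Gal(ℚ̄/K)` in `G` is a subgroup `G_K` of index `[K : ℚ]`; the algebraic characters of `G_K` are the
algebraic Hecke characters `χ` of `K`, and the `L`-function of `Ind χ` is the Hecke `L`-function of
`χ`. Every submotive, quotient and direct summand of a critical motive is critical.

* `Sides`: `D.crit V ρ` says that `(V, ρ)` is such a motive `M` with coefficients in `k` and that the
  integer which is considered is critical for `M`; `D.L V ρ ∈ A` is the value of the `L`-function,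
  `D.c V ρ ∈ A` is (a representative of) the period. Here `D.L V ρ = L(M, 0)` and `D.c V ρ = c^+(M)`.
* `Conj D V ρ`: Deligne's conjecture for `M`, that is `D.L V ρ = e * D.c V ρ` with `e ∈ k`.
* `IsKnown D`: the facts which are known: the motives are semisimple; `L` is multiplicative in direct
  sums, and `c` is, up to factors in `kˣ`; isomorphic motives have the same `L` and `c` (up to `kˣ`);
  `c` is invertible; and (`hecke`) Deligne's conjecture is true for the motives `Ind_{G_K}^G χ`, that
  is for the critical values of the `L`-functions of algebraic Hecke characters `χ` of number fields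
  `K` (Siegel and Klingen if `K` is totally real, Blasius if `K` is a CM field, in general Harder and
  Schappacher, Kings and Sprang, Kufner).
* `Ab ρ N`: the subgroup `N` acts through an abelian quotient. For `N = G_L` this says that `M` is over
  `L` a direct sum of motives of rank one over `k` (of algebraic Hecke characters of `L`).
* `Supersolvable Q`: the group `Q` has a chain of normal subgroups with cyclic quotients.
* `IsInduced N ρ`: `ρ` is induced from a character of a subgroup `H ⊇ N` of finite index: there is a
  basis indexed by `G ⧸ H` whose lines are permuted by `G` in the same way as the elements of `G ⧸ H`.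
* `SumInd N V ρ`: `ρ` is a direct sum of representations `σ` with `IsInduced N σ`.
* `Brauer D N V ρ`: `ρ ⊕ ρ' ≅ σ` where `σ` (which is critical) and `ρ'` are direct sums of inductions.
  For irreducible `M` this is Brauer's theorem if `Ab ρ N` and `N = G_L` is normal of finite index (and `L` is
  totally real if `M` is of type `(p, p)`).
-/

set_option autoImplicit false

namespace Pool.Agent.Results.MP_b696eb_nt.AbelianOverSupersolvable

open Pool.Agent.V2450.Deligne

open scoped TensorProduct in
/-- Let `M` be a critical motive with rational coefficients, `ρ` the representation of `M ⊗ k`, and let `L0`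
and `c0` be the complex numbers `L(M, 0)` and `c^+(M)` (`hL`, `hc`). (1) If `M ⊗ k` is a direct sum of
motives of rank one over a Galois extension `L` of `ℚ` with a supersolvable Galois group `G ⧸ N`, then it is
a direct sum of motives induced from algebraic Hecke characters of subfields of `L`, and `L(M, 0)` is a
rational multiple of `c^+(M)`, also at the centre of the functional equation. (2) For an arbitrary `L`,
this is true if the `L`-values of the critical motives which are induced from algebraic Hecke characters
of subfields of `L` are not zero (this is known outside of the centre of the functional equation). -/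
theorem result (k G : Type) [Field k] [IsAlgClosed k] [Algebra ℚ k] [Group G]
    (D : Sides k G (k ⊗[ℚ] ℂ)) (hD : IsKnown D) (V : Type) [AddCommGroup V] [Module k V]
    (ρ : Representation k G V) (hcrit : D.crit V ρ) (L0 c0 : ℂ)
    (hL : D.L V ρ = (1 : k) ⊗ₜ[ℚ] L0) (hc : ∃ u : k, u ≠ 0 ∧ D.c V ρ = u ⊗ₜ[ℚ] c0) :
    (∀ (N : Subgroup G) [N.Normal], Nontrivial V → Supersolvable (G ⧸ N) → Ab ρ N →
      SumInd N V ρ ∧ ∃ q : ℚ, L0 = (q : ℂ) * c0) ∧
    (∀ N : Subgroup G,
      (∀ (W : Type) [AddCommGroup W] [Module k W] (τ : Representation k G W), D.crit W τ →
        IsInduced N τ → D.L W τ ≠ 0) → Brauer D N V ρ → ∃ q : ℚ, L0 = (q : ℂ) * c0) := by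
  have key : Conj D V ρ → ∃ q : ℚ, L0 = (q : ℂ) * c0 := by
    rintro ⟨e, he⟩
    obtain ⟨u, _, hu⟩ := hc
    rw [hL, hu, Algebra.TensorProduct.algebraMap_apply, Algebra.TensorProduct.tmul_mul_tmul,
      one_mul] at he
    obtain ⟨q, hq⟩ := descent ℚ k ℂ L0 c0 _ he
    refine ⟨q, ?_⟩
    rw [hq, Algebra.smul_def]
    rfl
  refine ⟨?_, ?_⟩
  · intro N _ hV hQ hab
    have h := sumInd hD N hQ _ V ρ hcrit hV hab rfl
    exact ⟨h, key (conj_of_sumInd hD h hcrit)⟩
  · intro N hne hB
    obtain ⟨e, _, he⟩ := conj_of_brauer hD hne hB
    exact key ⟨e, he⟩

end Pool.Agent.Results.MP_b696eb_nt.AbelianOverSupersolvable
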