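import Pool.Agent.V11333.Cone10
import Pool.Agent.V11333.ArtinMat

/-!
# The value `L(M, 0)` and one-sided bounds for the traces of Frobenius

Let `M` be a motive of weight `w ≤ -1` over a number field `K` (in the problem `K = ℚ`) with rational
coefficients, `S` a set of primes of `K`, and for `v ∈ S` let `Φ_v` be a rational matrix with the characteristic
polynomial of the Frobenius at `v`. The point `0` is the centre (`w = -1`) or to the right of the centre of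

`L(M, s) = ∏_{v ∈ S} det(1 - q_v^{-s} Φ_v)⁻¹`

(for a critical motive the condition `w ≤ -1` holds for `M` or for the dual motive, by the functional
equation). The hypothesis is that `L(M, s)` has a continuation `F` along the REAL axis to `s ≥ 0`, analytic at
the real points (zeros are allowed). For `κ > 1` let

`S_κ(Y) = ∑_{v, k ≥ 1} w_κ(k log q_v / log Y) tr(Φ_v^k) / k`, `q_v^k ≤ exp ((log Y)^{κ'})`,
`w_κ(u) = (1/2πi) ∫ exp(z - u z^{1/κ}) dz/z`

(`κ' > κ` is irrelevant). It is shown that for `κ₀ ≥ 1` the following are EQUIVALENT: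

* `L(M, 0) ≠ 0`, and `L(M, s)` has a holomorphic continuation WITHOUT ZEROS to the union of `Re s > 1/2` and
  the sector `|arg s| < π/(2κ₀)` (for `κ₀ = 1`: the half plane `Re s > 0`);
* for some real `t < 1`: `S_κ(Y) + t log log Y` is bounded BELOW, for all `κ' > κ > κ₀`;
* `S_κ(Y)` is bounded below, for all `κ' > κ > κ₀`;
* `exp S_κ(Y)` converges to the positive real number `L(M, 0)`, for all `κ' > κ > κ₀`.

More generally for every real `t`: `S_κ(Y) + t log log Y` is bounded below for all `κ' > κ > κ₀` if and only if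
`ord_{s=0} L(M, s) ≤ t` and `L(M, s)` has the zero-free continuation. So if `S_κ(Y)` is bounded below up to
`t log log Y`, `t < 1`, then it converges, and the question `L(M, 0) ∈ ℚ c⁺(M)` is the question if the limit of
`exp S_κ(Y)` is a rational multiple of `c⁺(M)` (for one or all pairs `κ' > κ > κ₀`).
-/

set_option autoImplicit false

namespace Pool.Agent.Results.MP_b696eb_nt.OneSidedValueAtZero

open Filter Topology Set NumberField IsDedekindDomain

variable {K : Type} [Field K] [NumberField K] {d : ℕ}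
variable {S : Set (HeightOneSpectrum (𝓞 K))}

/-- The norm `q_v`. -/
noncomputable def nrm (v : HeightOneSpectrum (𝓞 K)) : ℕ := Ideal.absNorm v.asIdeal

/-- The matrix `Φ`, as a complex matrix. -/
noncomputable def cx (Φ : Matrix (Fin d) (Fin d) ℚ) : Matrix (Fin d) (Fin d) ℂ :=
  (algebraMap ℚ ℂ).mapMatrix Φ

/-- The complex eigenvalues of `Φ_v` have absolute value at most `q_v^{w/2}`. -/
def WeightAtMost (w : ℤ) (Φ : S → Matrix (Fin d) (Fin d) ℚ) : Prop :=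
  ∀ v : S, ∀ z ∈ (cx (Φ v)).charpoly.roots, ‖z‖ ≤ (nrm v.1 : ℝ) ^ ((w : ℝ) / 2)

/-- The Euler factor `det(1 - q_v^{-s} Φ_v)⁻¹`. -/
noncomputable def factor (Φ : S → Matrix (Fin d) (Fin d) ℚ) (v : S) (s : ℂ) : ℂ :=
  ((1 - (nrm v.1 : ℂ) ^ (-s) • cx (Φ v)).det)⁻¹

/-- The open sector `|arg s| < π/(2κ)`. -/
def Sector (κ : ℝ) : Set ℂ := {s | s ≠ 0 ∧ |s.arg| < Real.pi / (2 * κ)}

/-- `F` is a continuation of `L(M, s)` along the real axis: analytic at all real `x ≥ 0`, and equal to the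
Euler product for real `x > 1/2`. -/
def IsRealContinuation (Φ : S → Matrix (Fin d) (Fin d) ℚ) (F : ℂ → ℂ) : Prop :=
  (∀ x : ℝ, 0 ≤ x → AnalyticAt ℂ F x) ∧
    ∀ x : ℝ, 1 / 2 < x → HasProd (fun v : S => factor Φ v x) (F x)

/-- `L(M, s)` has a holomorphic continuation `G` without zeros to the union of the sector
`|arg s| < π/(2κ₀)` and the half plane `Re s > 1/2`. -/
def ZeroFree (Φ : S → Matrix (Fin d) (Fin d) ℚ) (κ₀ : ℝ) : Prop :=
  ∃ G : ℂ → ℂ, (∀ s : ℂ, s ∈ Sector κ₀ ∨ 1 / 2 < s.re → DifferentiableAt ℂ G s ∧ G s ≠ 0) ∧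
    ∀ s : ℂ, 1 / 2 < s.re → HasProd (fun v : S => factor Φ v s) (G s)

/-- The weight `w_κ(u) = (1/2πi) ∫_{Re z = 1} exp(z - u z^{1/κ}) dz/z`. -/
noncomputable def weight (κ u : ℝ) : ℝ :=
  (2 * Real.pi)⁻¹ * ∫ t : ℝ, (Complex.exp ((1 + t * Complex.I) -
    u * (1 + t * Complex.I) ^ ((κ⁻¹ : ℝ) : ℂ)) / (1 + t * Complex.I)).re

/-- `S_κ(Y)`: the sum of `w_κ(k log q_v / log Y) tr(Φ_v^k) / k` over the primes `v ∈ S` and the `k ≥ 1` (here
`k = p.2 + 1`) with `q_v^k ≤ exp ((log Y)^{κ'})`. -/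
noncomputable def mean (Φ : S → Matrix (Fin d) (Fin d) ℚ) (κ κ' Y : ℝ) : ℝ :=
  ∑ᶠ (p : S × ℕ) (_ : (nrm p.1.1 : ℝ) ^ (p.2 + 1) ≤ Real.exp (Real.log Y ^ κ')),
    weight κ (((p.2 : ℝ) + 1) * Real.log (nrm p.1.1) / Real.log Y) *
      (((Φ p.1 ^ (p.2 + 1)).trace : ℝ) / ((p.2 : ℝ) + 1))

/-- `S_κ(Y) + t log log Y` is bounded below for `Y → ∞`, for all `κ' > κ > κ₀`. -/
def Lower (Φ : S → Matrix (Fin d) (Fin d) ℚ) (κ₀ t : ℝ) : Prop :=
  ∀ κ κ' : ℝ, κ₀ < κ → κ < κ' → ∃ C : ℝ, ∀ᶠ Y : ℝ in atTop,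
    -C ≤ mean Φ κ κ' Y + t * Real.log (Real.log Y)

open Pool.Agent.V11333
open Pool.Agent.H921R2.TatePole (nm)

/-- the eigenvalues -/
noncomputable def ev (Φ : S → Matrix (Fin d) (Fin d) ℚ) (v : S) (j : Fin d) : ℂ :=
  AM.enum (cx (Φ v)) j

theorem cx_trace (A : Matrix (Fin d) (Fin d) ℚ) : (cx A).trace = ((A.trace : ℝ) : ℂ) := by
  unfold cx Matrix.trace
  rw [Rat.cast_sum, Complex.ofReal_sum]
  refine Finset.sum_congr rfl fun i _ => ?_
  rw [RingHom.mapMatrix_apply, Matrix.diag_apply, Matrix.map_apply, Matrix.diag_apply,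
    Complex.ofReal_ratCast, eq_ratCast]

theorem ev_sum (Φ : S → Matrix (Fin d) (Fin d) ℚ) (v : S) (k : ℕ) :
    ∑ j, ev Φ v j ^ k = (((Φ v ^ k).trace : ℝ) : ℂ) := by
  rw [← cx_trace]
  unfold ev
  rw [← AM.trace_pow]
  unfold cx
  rw [map_pow]

theorem pure {w : ℤ} {Φ : S → Matrix (Fin d) (Fin d) ℚ} (h : WeightAtMost w Φ) (hw : w ≤ -1) :
    PR.Pure (-1 / 2) (ev Φ) := by
  refine ⟨fun v j => (h v _ (AM.enum_mem _ j)).trans ?_, fun v k => ?_⟩
  · have h2 := PR.nrm_two v.1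
    have h3 : (w : ℝ) ≤ -1 := by exact_mod_cast hw
    exact Real.rpow_le_rpow_of_exponent_le (by linarith : (1 : ℝ) ≤ nm v.1) (by linarith)
  · rw [ev_sum, Complex.ofReal_im]

theorem factor_eq (Φ : S → Matrix (Fin d) (Fin d) ℚ) (v : S) (s : ℂ) :
    PR.factor (ev Φ) v s = factor Φ v s := by
  have h0 : (nrm v.1 : ℂ) ≠ 0 := by
    have h1 : 2 ≤ nrm v.1 := Pool.Agent.H921R2.TatePole.two_le_nm v.1
    have h2 : nrm v.1 ≠ 0 := by omega
    exact_mod_cast h2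
  unfold PR.factor factor
  rw [AM.det_eq _ (by
    rw [Complex.cpow_def_of_ne_zero h0]
    exact Complex.exp_ne_zero _), Finset.prod_inv_distrib]
  rfl

theorem mean_eq (Φ : S → Matrix (Fin d) (Fin d) ℚ) (κ κ' Y : ℝ) :
    CP.mean 0 (ev Φ) κ κ' Y = mean Φ κ κ' Y := by
  unfold CP.mean mean
  refine finsum_congr fun p => finsum_congr fun _ => ?_
  rw [ev_sum, Complex.ofReal_re, Real.rpow_zero, one_pow, mul_one]
  rfl

theorem sector_eq (κ : ℝ) : CP.Sector 0 κ = Sector κ := by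
  unfold CP.Sector Sector
  rw [Complex.ofReal_zero]
  simp only [sub_zero]

theorem real_iff (Φ : S → Matrix (Fin d) (Fin d) ℚ) (F : ℂ → ℂ) :
    CP.IsRealContinuation 0 (1 / 2) (ev Φ) F ↔ IsRealContinuation Φ F := by
  unfold CP.IsRealContinuation IsRealContinuation
  simp only [factor_eq]

theorem zero_iff (Φ : S → Matrix (Fin d) (Fin d) ℚ) (κ₀ : ℝ) :
    CP.ZeroFree 0 (1 / 2) (ev Φ) κ₀ ↔ ZeroFree Φ κ₀ := by
  unfold CP.ZeroFree ZeroFree
  simp only [sector_eq, factor_eq]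

theorem lower_iff (Φ : S → Matrix (Fin d) (Fin d) ℚ) (κ₀ t : ℝ) :
    CP.LowerR 0 (ev Φ) κ₀ t ↔ Lower Φ κ₀ t := by
  unfold CP.LowerR Lower
  simp only [mean_eq]

/-- **Theorem.** Let `S` be a set of primes of a number field `K`, `Φ_v ∈ M_d(ℚ)` (`v ∈ S`) with eigenvalues of
absolute value at most `q_v^{w/2}`, `w ≤ -1`, `F` a continuation of `L(M, s)` along the real axis which is
analytic at all real `s ≥ 0`, and `κ₀ ≥ 1`.

(1) For all real `t`: `S_κ(Y) + t log log Y` is bounded below for all `κ' > κ > κ₀` if and only if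
`ord_{s=0} L(M, s) ≤ t` and `L(M, s)` has a holomorphic continuation without zeros to the union of
`Re s > 1/2` and the sector `|arg s| < π/(2κ₀)`.

(2) The following are equivalent: `L(M, 0) ≠ 0` and `L(M, s)` has the continuation of (1); `S_κ(Y)` is bounded
below for all `κ' > κ > κ₀`; for some `t < 1` the sum `S_κ(Y) + t log log Y` is bounded below for all
`κ' > κ > κ₀`; `L(M, 0)` is real and positive and `exp S_κ(Y) → L(M, 0)` for all `κ' > κ > κ₀`.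

(3) In this case for all complex `c` and `κ' > κ > κ₀`: `L(M, 0) ∈ ℚ c` if and only if
`lim exp S_κ(Y) ∈ ℚ c`.

For `κ₀ = 1` the sector is the half plane `Re s > 0`. -/
theorem result (w : ℤ) (hw : w ≤ -1) (Φ : S → Matrix (Fin d) (Fin d) ℚ) (h : WeightAtMost w Φ)
    (F : ℂ → ℂ) (hF : IsRealContinuation Φ F) (κ₀ : ℝ) (hκ₀ : 1 ≤ κ₀) :
    (∀ t : ℝ, Lower Φ κ₀ t ↔ (∃ m : ℕ, analyticOrderAt F 0 = m ∧ (m : ℝ) ≤ t) ∧ ZeroFree Φ κ₀) ∧
    ((F 0 ≠ 0 ∧ ZeroFree Φ κ₀) ↔ Lower Φ κ₀ 0) ∧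
    (Lower Φ κ₀ 0 ↔ ∃ t : ℝ, t < 1 ∧ Lower Φ κ₀ t) ∧
    (Lower Φ κ₀ 0 ↔ ∃ A : ℝ, 0 < A ∧ F 0 = A ∧ ∀ κ κ' : ℝ, κ₀ < κ → κ < κ' →
      Tendsto (fun Y : ℝ => Real.exp (mean Φ κ κ' Y)) atTop (𝓝 A)) ∧
    (Lower Φ κ₀ 0 → ∀ (c : ℂ) (κ κ' : ℝ), κ₀ < κ → κ < κ' →
      ((∃ a : ℚ, F 0 = a * c) ↔ ∃ a : ℚ, Tendsto (fun Y : ℝ =>
        ((Real.exp (mean Φ κ κ' Y) : ℝ) : ℂ)) atTop (𝓝 (a * c)))) ∧
    Sector 1 = {s : ℂ | 0 < s.re} := by
  have hp := pure h hw
  have h0 := (real_iff Φ F).2 hF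
  obtain ⟨k1, k2, k3⟩ := CP.value_main hp (c := 0) (σ := 1 / 2) (by norm_num) (by norm_num) hκ₀ h0
  have k0 : ∀ t : ℝ, _ := fun t => CP.order_main hp (c := 0) (σ := 1 / 2) (by norm_num)
    (by norm_num) hκ₀ h0 t
  simp only [lower_iff, zero_iff, Complex.ofReal_zero] at k0 k1 k2 k3
  have k4 : Lower Φ κ₀ 0 ↔ ∃ A : ℝ, 0 < A ∧ F 0 = A ∧ ∀ κ κ' : ℝ, κ₀ < κ → κ < κ' →
      Tendsto (fun Y : ℝ => Real.exp (mean Φ κ κ' Y)) atTop (𝓝 A) := by
    rw [k3]
    refine exists_congr fun A => and_congr_right fun hA => and_congr_right fun _ => ?_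
    unfold CP.Limits
    simp only [mean_eq, Nat.cast_zero, zero_mul, add_zero, zero_div, sub_zero]
    refine forall_congr' fun κ => forall_congr' fun κ' => forall_congr' fun _ =>
      forall_congr' fun _ => ⟨fun h1 => ?_, fun h1 => ?_⟩
    · have h2 := (Real.continuous_exp.tendsto _).comp h1
      rw [Real.exp_log hA] at h2
      exact h2
    · have h2 := h1.log hA.ne'
      simpa only [Real.log_exp] using h2
  refine ⟨k0, k1, k2, k4, fun hL c κ κ' hκ hκ' => ?_, ?_⟩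
  · obtain ⟨A, hA, hA0, hA1⟩ := k4.1 hL
    have h1 : Tendsto (fun Y : ℝ => ((Real.exp (mean Φ κ κ' Y) : ℝ) : ℂ)) atTop (𝓝 (A : ℂ)) :=
      (Complex.continuous_ofReal.tendsto A).comp (hA1 κ κ' hκ hκ')
    refine exists_congr fun a => ?_
    rw [hA0]
    constructor
    · intro h2
      rwa [h2] at h1
    · intro h2
      exact tendsto_nhds_unique h1 h2
  · ext s
    rw [← sector_eq, CP.sector_shift, Pool.Agent.TH942.ES.sect_one]
    simp only [Set.mem_ofPred_eq, Complex.sub_re, Complex.ofReal_re, sub_zero]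

end Pool.Agent.Results.MP_b696eb_nt.OneSidedValueAtZero
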