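import Pool.Agent.V11288.LZ.RealE

/-!
# Deligne's conjecture over `ℚ`: the value at `0`, its sign and the real zeros from explicit sums over primes

Let `M` be a motive over `ℚ` with rational coefficients, of rank `d` and weight `w`, for example critical.  For
every prime `p` let `F_p ∈ M_d(ℚ)` be a matrix with `det(1 - X F_p) = det(1 - X Frob_p | M_ℓ^{I_p})` (filled up
with zeros at the bad primes).  The eigenvalues of `F_p` have absolute value at most `p^{w/2}` (Deligne).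
`L(s) = L(M, s)` is the Euler product of `det(1 - p^{-s} F_p)⁻¹` for `Re s > w/2 + 1`; it is assumed to be
meromorphic at the points of the real interval `[0, w/2 + 1]`.  Let for real `γ ≥ 0` and `X > 1`, with
`u = k log p / log X`,

`W_γ(X) = ∑_p ∑_{k ≥ 1} tr(F_p^k)/k · e^{iγu} / Γ(1 + u)`,
`V_γ(X) = ∑_p ∑_{k ≥ 1} tr(F_p^k)/k · cos(γu) / Γ(1 + u)` (the real part of `W_γ(X)`),
`Λ_γ = ∫_0^∞ (e^{-t} - e^{iγt}/Γ(1+t)) dt/t`.

1. For `γ > π/2`, if `r` is the order and `l` the (real) leading coefficient of `L(M, s)` at `0` and `z` the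
   number of the zeros minus the number of the poles on the positive real axis (with multiplicities),
   `W_γ(X) = log |l| - iπz - r (log log X - Λ_γ) + O(1/log X)`.

2. For `γ > π/2` and `B ∈ ℂ`: `L(M, s) → B` for `s → 0` iff `exp W_γ(X) → B` for `X → ∞`.  In particular
   Deligne's conjecture, for any number `c` (`c = c^+(M)`): `L(M, 0) ∈ ℚ c` iff `lim exp W_γ(X) ∈ ℚ c`.

3. (Angles greater than a right angle.)  For `γ > π/2` and `r ∈ ℤ`: `V_γ(X) = -r log log X + O(1)` iff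
   `ord_{s=0} L(M, s) = r`.

4. (Angles smaller than a right angle.)  For `0 ≤ γ < π/2` and `r ∈ ℤ`: `V_γ(X) = -r log log X + O(1)` iff
   `ord_{s=0} L(M, s) = r` AND `L(M, s)` has neither zeros nor poles on the positive real axis.

5. If the rightmost of these zeros and poles is at `x > 0`, of order `m ≠ 0`, then for `0 ≤ γ < π/2` and every
   `y < x` the sum `-sign(m) V_γ(X)` exceeds `exp(X^y)` for arbitrarily large `X`.

So the value at the critical point, and its sign, are limits of explicit sums over the primes, with no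
hypothesis on zeros, and the transition at the right angle detects the real zeros and poles.

Proof.  `Pool.Agent.V11290.UL` (rotated Mittag-Leffler sums, for central points, `MP_b8021b_nt.NumericalCriterion`
and `MP_dfae13_nt.NumericalForm`), extended to all real points and complex coefficients in
`Pool.Agent.V11288.LZ`.
-/

set_option autoImplicit false

namespace Pool.Agent.Results.MP_b696eb_nt.RealZerosAndValues

open Filter Topology Set

variable {d : ℕ}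

/-- The matrix `F_p` as a complex matrix. -/
noncomputable def cx (M : Matrix (Fin d) (Fin d) ℚ) : Matrix (Fin d) (Fin d) ℂ := M.map (fun x => (x : ℂ))

/-- The eigenvalues of all `F_p` have absolute value at most `p^{w/2}`. -/
def WeightAtMost (w : ℤ) (F : Nat.Primes → Matrix (Fin d) (Fin d) ℚ) : Prop :=
  ∀ p : Nat.Primes, ∀ z ∈ (cx (F p)).charpoly.roots, ‖z‖ ≤ (p : ℝ) ^ ((w : ℝ) / 2)

/-- `L(s) = L(M, s)`: the Euler product of `det(1 - p^{-s} F_p)⁻¹` for `Re s > w/2 + 1`, meromorphic at the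
points of the real interval `[0, w/2 + 1]`. -/
structure IsLFunction (w : ℤ) (F : Nat.Primes → Matrix (Fin d) (Fin d) ℚ) (L : ℂ → ℂ) : Prop where
  mero : ∀ x ∈ Icc (0 : ℝ) ((w : ℝ) / 2 + 1), MeromorphicAt L (x : ℂ)
  prod : ∀ s : ℂ, (w : ℝ) / 2 + 1 < s.re →
    L s = ∏' p : Nat.Primes, ((1 - (p : ℂ) ^ (-s) • cx (F p)).det)⁻¹

/-- The term of `W_γ(X)` at `(p, k)`. -/
noncomputable def term (F : Nat.Primes → Matrix (Fin d) (Fin d) ℚ) (γ X : ℝ) (p : Nat.Primes) (k : ℕ) : ℂ :=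
  ((F p ^ k).trace : ℂ) / k * (Complex.exp ((γ * (k * Real.log p / Real.log X) : ℝ) * Complex.I) /
    (Real.Gamma (1 + k * Real.log p / Real.log X) : ℂ))

/-- `W_γ(X)`, the sum over the primes `p` and `k ≥ 1` (here `k = x.2 + 1`). -/
noncomputable def W (F : Nat.Primes → Matrix (Fin d) (Fin d) ℚ) (γ X : ℝ) : ℂ :=
  ∑' x : Nat.Primes × ℕ, term F γ X x.1 (x.2 + 1)

/-- The term of `V_γ(X)` at `(p, k)`. -/
noncomputable def realTerm (F : Nat.Primes → Matrix (Fin d) (Fin d) ℚ) (γ X : ℝ) (p : Nat.Primes)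
    (k : ℕ) : ℝ :=
  ((F p ^ k).trace : ℝ) / k * (Real.cos (γ * (k * Real.log p / Real.log X)) /
    Real.Gamma (1 + k * Real.log p / Real.log X))

/-- `V_γ(X)`, the sum over the primes `p` and `k ≥ 1` (here `k = x.2 + 1`). -/
noncomputable def V (F : Nat.Primes → Matrix (Fin d) (Fin d) ℚ) (γ X : ℝ) : ℝ :=
  ∑' x : Nat.Primes × ℕ, realTerm F γ X x.1 (x.2 + 1)

/-- `Λ_γ = ∫_0^∞ (e^{-t} - e^{iγt} / Γ(1 + t)) dt / t`. -/
noncomputable def Lam (γ : ℝ) : ℂ := ∫ t in Ioi (0 : ℝ),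
  (Complex.exp (-(t : ℂ)) - Complex.exp ((γ * t : ℝ) * Complex.I) * ((Real.Gamma (1 + t))⁻¹ : ℝ)) / t

/-- The order of `L` at the real point `x` is `r`. -/
def OrderAt (L : ℂ → ℂ) (x : ℝ) (r : ℤ) : Prop := meromorphicOrderAt L (x : ℂ) = r

/-- The number of the zeros minus the number of the poles of `L` on the positive real axis. -/
noncomputable def excess (L : ℂ → ℂ) : ℤ := ∑ᶠ x ∈ Ioi (0 : ℝ), (meromorphicOrderAt L (x : ℂ)).untop₀

/-- `V_γ(X) = -r log log X + O(1)` for `X → ∞`. -/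
def BoundedLaw (F : Nat.Primes → Matrix (Fin d) (Fin d) ℚ) (γ : ℝ) (r : ℤ) : Prop :=
  ∃ C X₀ : ℝ, ∀ X ≥ X₀, |V F γ X + r * Real.log (Real.log X)| ≤ C

/-- `L(s) → B` for `s → 0`, `s ≠ 0`. -/
def ValueAtZero (L : ℂ → ℂ) (B : ℂ) : Prop := Tendsto L (𝓝[≠] 0) (𝓝 B)

/-- `exp W_γ(X) → B` for `X → ∞`. -/
def PrimeLimit (F : Nat.Primes → Matrix (Fin d) (Fin d) ℚ) (γ : ℝ) (B : ℂ) : Prop :=
  Tendsto (fun X : ℝ => Complex.exp (W F γ X)) atTop (𝓝 B)

open Pool.Agent.V11288.LZ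

variable {w : ℤ} {F : Nat.Primes → Matrix (Fin d) (Fin d) ℚ} {γ : ℝ}

theorem eul (hF : WeightAtMost w F) :
    Eul 1 ((w : ℝ) / 2) (fun p : Nat.Primes => (p : ℝ)) (fun p => cx (F p)) :=
  ⟨le_rfl, fun p => by exact_mod_cast p.2.two_le,
    fun _ hx => Nat.Primes.summable_rpow.2 (by linarith), hF⟩

theorem trace_cx (M : Matrix (Fin d) (Fin d) ℚ) (k : ℕ) : (cx M ^ k).trace = ((M ^ k).trace : ℂ) := by
  have h1 : cx M ^ k = cx (M ^ k) := by
    have h2 : ∀ N : Matrix (Fin d) (Fin d) ℚ, cx N = (Rat.castHom ℂ).mapMatrix N := fun N => rfl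
    rw [h2, h2, map_pow]
  rw [h1]
  simp [Matrix.trace, cx]

theorem trace_im (M : Matrix (Fin d) (Fin d) ℚ) (k : ℕ) : (cx M ^ k).trace.im = 0 := by
  rw [trace_cx]
  exact Complex.ratCast_im _

theorem term_eq (X : ℝ) (x : Nat.Primes × ℕ) :
    tm (fun p : Nat.Primes => (p : ℝ)) (fun p => cx (F p)) 0 γ X x = term F γ X x.1 (x.2 + 1) := by
  unfold tm term wt
  rw [trace_cx, Real.rpow_zero, Complex.ofReal_one, one_pow, mul_one]

theorem rterm_eq (X : ℝ) (x : Nat.Primes × ℕ) :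
    rtm (fun p : Nat.Primes => (p : ℝ)) (fun p => cx (F p)) 0 γ X x = realTerm F γ X x.1 (x.2 + 1) := by
  unfold rtm realTerm
  rw [trace_cx, Real.rpow_zero, one_pow, mul_one, Complex.ratCast_re]

theorem W_eq (X : ℝ) :
    tot (fun p : Nat.Primes => (p : ℝ)) (fun p => cx (F p)) 0 γ X = W F γ X :=
  tsum_congr fun x => term_eq X x

theorem V_eq : vot (fun p : Nat.Primes => (p : ℝ)) (fun p => cx (F p)) 0 γ = V F γ := by
  funext X
  exact tsum_congr fun x => rterm_eq X x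

/-- **The value at `0`, its sign and the real zeros from sums over primes.** -/
theorem result (w : ℤ) (F : Nat.Primes → Matrix (Fin d) (Fin d) ℚ) (hF : WeightAtMost w F)
    (L : ℂ → ℂ) (hL : IsLFunction w F L) :
    (∀ γ : ℝ, Real.pi / 2 < γ → ∃ (r : ℤ) (l : ℝ), l ≠ 0 ∧ OrderAt L 0 r ∧
      Tendsto (fun s : ℂ => L s / s ^ r) (𝓝[≠] 0) (𝓝 l) ∧
      (fun X : ℝ => W F γ X - (Real.log |l| - Complex.I * Real.pi * excess L -
        r * (Real.log (Real.log X) - Lam γ))) =O[atTop] (fun X : ℝ => 1 / Real.log X)) ∧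
    (∀ γ : ℝ, Real.pi / 2 < γ → ∀ B : ℂ, ValueAtZero L B ↔ PrimeLimit F γ B) ∧
    (∀ γ : ℝ, Real.pi / 2 < γ → ∀ c : ℂ,
      (∃ x : ℚ, ValueAtZero L (x * c)) ↔ ∃ x : ℚ, PrimeLimit F γ (x * c)) ∧
    (∀ (γ : ℝ) (r : ℤ), Real.pi / 2 < γ → (BoundedLaw F γ r ↔ OrderAt L 0 r)) ∧
    (∀ (γ : ℝ) (r : ℤ), 0 ≤ γ → γ < Real.pi / 2 →
      (BoundedLaw F γ r ↔ OrderAt L 0 r ∧ ∀ x : ℝ, 0 < x → OrderAt L x 0)) ∧
    ∀ (γ : ℝ), 0 ≤ γ → γ < Real.pi / 2 → ∀ (x₁ : ℝ) (m : ℤ), 0 < x₁ → m ≠ 0 → OrderAt L x₁ m →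
      (∀ x : ℝ, x₁ < x → OrderAt L x 0) → ∀ y : ℝ, y < x₁ →
      ∃ᶠ X : ℝ in atTop, Real.exp (X ^ y) ≤ -(m.sign : ℝ) * V F γ X := by
  have hmero : ∀ x ∈ Icc (0 : ℝ) (1 + (w : ℝ) / 2), MeromorphicAt L (x : ℂ) :=
    fun x hx => hL.mero x ⟨hx.1, by linarith [hx.2]⟩
  have hprod : ∀ s : ℂ, 1 + (w : ℝ) / 2 < s.re →
      L s = ∏' p : Nat.Primes, ((1 - (p : ℂ) ^ (-s) • cx (F p)).det)⁻¹ :=
    fun s hs => hL.prod s (by linarith)
  obtain ⟨h1, h2, h3, h4⟩ := (eul hF).real (fun p k => trace_im (F p) k) 0 hmero hprod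
  have hv : ∀ γ : ℝ, Real.pi / 2 < γ → ∀ B : ℂ, ValueAtZero L B ↔ PrimeLimit F γ B := by
    intro γ hγ B
    have h := ((eul hF).final' 0 hmero hprod hγ).2.2.2 B
    rw [Complex.ofReal_zero] at h
    simp only [W_eq] at h
    exact h
  refine ⟨fun γ hγ => ?_, hv, fun γ hγ c => ?_, fun γ r hγ => ?_, fun γ r hγ hγ2 => ?_,
    fun γ hγ hγ2 x₁ m hx₁ hm0 hm hz y hy => ?_⟩
  · obtain ⟨m, l, h5, h6, h7, h8⟩ := h1 γ hγ
    simp only [Complex.ofReal_zero, sub_zero] at h7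
    refine ⟨m, l, h5, h6, h7, ?_⟩
    refine h8.congr_left fun X => ?_
    rw [W_eq]
    show _ = W F γ X - (Real.log |l| - Complex.I * Real.pi * excessR L 0 -
        m * (Real.log (Real.log X) - Pool.Agent.W187.UR.Lam γ))
    ring
  · simp only [hv γ hγ]
  · have h5 := h2 γ r hγ
    rw [V_eq] at h5
    exact h5
  · have h5 := h3 γ r hγ hγ2
    rw [V_eq] at h5
    exact h5
  · have h5 := h4 γ hγ hγ2 x₁ m hx₁ hm0 hm hz y (by linarith)
    rw [V_eq] at h5
    exact h5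

end Pool.Agent.Results.MP_b696eb_nt.RealZerosAndValues
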