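import Pool.Agent.V2450.Deligne.ModSuper

/-!
# Deligne's conjecture for the twists of modular forms with Artin motives of totally real fields
with supersolvable groups

The conventions are those of MP_b696eb_nt, so `E = ℚ`.

Let `f` be a newform of weight `κ ≥ 2` with coefficients in `E`, `M` its motive of weight `κ - 1`, `k` an
algebraic closure of `ℚ` and `A = k ⊗ ℂ`. Let `R` be the union of all totally
real number fields and `G = Gal(R/ℚ)`. The index `i ∈ ι` is a pair `(m, ε)`, `m` a critical integer of
`M` and `ε` a Dirichlet character with `ε² = 1` such that `(-1)^m ε(-1)` is a fixed sign.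

* `Sides`: `(D i).crit V ρ` says that `(V, ρ)` is a representation of `G` over `k` with an open kernel
  which over some totally real number field with a supersolvable Galois group over `ℚ` is a direct sum
  of characters; `(D i).L V ρ = L(M(m) ⊗ ε ⊗ ρ, 0)` and `(D i).c V ρ` is the
  period `c^+(M(m) ⊗ ε ⊗ ρ)`.
* `Conj (D i) V ρ`: Deligne's conjecture, that is `(D i).L V ρ = e * (D i).c V ρ` with `e ∈ k`.
* `Basic`: representations are semisimple; `L` is multiplicative in direct sums, and `c` is, up to
  factors in `kˣ`; `c` is invertible.
* `IsModular`: `basic`; `dirichlet`: Deligne's conjecture is true for the twists with Dirichlet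
  characters (Shimura); `shimura`: for every totally real number field `K`, the field of the subgroup
  `H` of `G`, there is a number `u` (the quotient of the period of Shimura of the base change `f_K` by
  a power of the period of `f`) such that for all `i` and all `ρ = Ind χ`, `χ` a character of `K` of
  finite order, `L` is an element of `k` times `u` times `c` (Shimura's theorem for Hilbert modular
  forms and Deligne's formula for the period of `M ⊗ ρ`).
* `IndFrom H ρ`: `ρ` is induced from a character of `H`.
* `SomeValue D N`, `N = G_L`: for all fields `K ⊆ L`, `K ≠ ℚ`, there are `i` and a reducible `ρ` with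
  `IndFrom G_K ρ`, which is over `L` a direct sum of characters, and with a value which is not zero. If
  `κ ≥ 3` this is true for all `L` (take `ρ = Ind 1` and `m = κ - 1`; Jacquet and Shalika for `κ = 3`), if
  `κ = 2` this is true if `L` is abelian over `ℚ` (take `ρ = Ind (ψ|K)`, where `ψ` is an even Dirichlet
  character of prime power conductor; Rohrlich).
* `Supersolvable Q`: the group `Q` has a chain of normal subgroups with cyclic quotients.
* `hL`, `hc`: the motive `M(m) ⊗ ε ⊗ ρ` with coefficients in `k` comes from a motive with rational
  coefficients, whose `L`-value and period are the complex numbers `L0` and `c0` (`hc`: up to a factor in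
  `kˣ`).
* `Ab ρ N`: the subgroup `N` acts through an abelian quotient.
* `SumInd N V ρ`: `ρ` is a direct sum of representations which are induced from characters of
  subgroups of finite index which contain `N`.
-/

set_option autoImplicit false

namespace Pool.Agent.Results.MP_b696eb_nt.SupersolvableModularTwists

open Pool.Agent.V2450.Deligne

open scoped TensorProduct in
/-- Let `L` be a totally real number field, Galois over `ℚ` with a supersolvable group `G ⧸ N`, and let
`ρ` be a representation of `G` which is a direct sum of characters over `L`. Then `ρ` is a direct sum of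
representations which are induced from characters of subfields of `L`, and if `M(m) ⊗ ε ⊗ ρ` has rational
coefficients then its `L`-value at `0` is a rational multiple of its period, also at the centre of the
functional equation. -/
theorem result (k G : Type) [Field k] [IsAlgClosed k] [Algebra ℚ k] [Group G] (ι : Type)
    (D : ι → Sides k G (k ⊗[ℚ] ℂ)) (hD : IsModular D) (N : Subgroup G) [N.Normal]
    (hQ : Supersolvable (G ⧸ N)) (hne : SomeValue D N) (i : ι) (V : Type) [AddCommGroup V]
    [Module k V] (hV : Nontrivial V) (ρ : Representation k G V) (hcrit : (D i).crit V ρ)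
    (hab : Ab ρ N) (L0 c0 : ℂ) (hL : (D i).L V ρ = (1 : k) ⊗ₜ[ℚ] L0)
    (hc : ∃ u : k, u ≠ 0 ∧ (D i).c V ρ = u ⊗ₜ[ℚ] c0) :
    SumInd N V ρ ∧ ∃ q : ℚ, L0 = (q : ℂ) * c0 := by
  obtain ⟨hS, e, he⟩ := conj_modular_super hD N hQ hne i V ρ hcrit hV hab
  obtain ⟨u, _, hu⟩ := hc
  rw [hL, hu, Algebra.TensorProduct.algebraMap_apply, Algebra.TensorProduct.tmul_mul_tmul,
    one_mul] at he
  obtain ⟨q, hq⟩ := descent ℚ k ℂ L0 c0 _ he
  refine ⟨hS, q, ?_⟩
  rw [hq, Algebra.smul_def]
  rfl

end Pool.Agent.Results.MP_b696eb_nt.SupersolvableModularTwists
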